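import Pool.Agent.H891R3.NR.Stmts

/-! The disphenoid with acute faces, all faces being copies of one oriented triangle
(`TaskAcute` of project H891NR). -/

set_option autoImplicit false

namespace Pool.Agent.H662R3.NR

open Module
open Pool.Agent.Results.MP_fb3fae_co.AllTriangles
open Pool.Agent.H891R3.NR

lemma vol3_pos_interior (P : Set E3) (x y z w : E3)
    (hP : ∀ v ∈ P, 0 ≤ vol3 (y - x) (z - x) (x - v))
    (hw : 0 < vol3 (y - x) (z - x) (x - w)) (o : E3) (ho : o ∈ interior P) :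
    0 < vol3 (y - x) (z - x) (x - o) := by
  by_contra hc
  push Not at hc
  have hcont : Continuous fun t : ℝ => o + t • (x - w) := by fun_prop
  have h0 : (fun t : ℝ => o + t • (x - w)) 0 ∈ interior P := by simpa using ho
  have h3 := hcont.continuousAt.preimage_mem_nhds (isOpen_interior.mem_nhds h0)
  obtain ⟨ε, hε, hball⟩ := Metric.mem_nhds_iff.1 h3
  have hmem : o + (ε / 2) • (x - w) ∈ P := by
    refine interior_subset (hball ?_)
    rw [Metric.mem_ball, Real.dist_eq, sub_zero, abs_of_pos (by linarith)]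
    linarith
  have h1 := hP _ hmem
  have h2 : vol3 (y - x) (z - x) (x - (o + (ε / 2) • (x - w))) =
      vol3 (y - x) (z - x) (x - o) - (ε / 2) * vol3 (y - x) (z - x) (x - w) := by
    simp only [vol3, PiLp.sub_apply, PiLp.add_apply, PiLp.smul_apply, smul_eq_mul]
    ring
  rw [h2] at h1
  have := mul_pos (half_pos hε) hw
  linarith

lemma hull_nonneg (V : Set E3) (x y z w : E3) (hV : ∀ v ∈ V, v = x ∨ v = y ∨ v = z ∨ v = w)
    (hw : 0 < vol3 (y - x) (z - x) (x - w)) :
    ∀ v ∈ convexHull ℝ V, 0 ≤ vol3 (y - x) (z - x) (x - v) := by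
  have hconv : Convex ℝ {v : E3 | 0 ≤ vol3 (y - x) (z - x) (x - v)} := by
    intro v hv u hu s t hs ht hst
    have : vol3 (y - x) (z - x) (x - (s • v + t • u)) =
        s * vol3 (y - x) (z - x) (x - v) + t * vol3 (y - x) (z - x) (x - u) := by
      have e : t = 1 - s := by linarith
      subst e
      simp only [vol3, PiLp.sub_apply, PiLp.add_apply, PiLp.smul_apply, smul_eq_mul]
      ring
    rw [Set.mem_ofPred_eq, this]
    exact add_nonneg (mul_nonneg hs hv) (mul_nonneg ht hu)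
  intro v hv
  refine (convexHull_min ?_ hconv) hv
  intro u hu
  rcases hV u hu with rfl | rfl | rfl | rfl
  · rw [Set.mem_ofPred_eq]
    apply le_of_eq
    simp only [vol3, PiLp.sub_apply]
    ring
  · rw [Set.mem_ofPred_eq]
    apply le_of_eq
    simp only [vol3, PiLp.sub_apply]
    ring
  · rw [Set.mem_ofPred_eq]
    apply le_of_eq
    simp only [vol3, PiLp.sub_apply]
    ring
  · exact hw.le

/-- four points -/
noncomputable def dv (p q r : ℝ) : Finset E3 := by
  classical
  exact {pt p q r, pt p (-q) (-r), pt (-p) q (-r), pt (-p) (-q) r}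

lemma mem_dv (p q r : ℝ) (v : E3) : v ∈ dv p q r ↔
    v = pt p q r ∨ v = pt p (-q) (-r) ∨ v = pt (-p) q (-r) ∨ v = pt (-p) (-q) r := by
  classical
  simp [dv]

lemma span_dv (p q r : ℝ) (hp : p ≠ 0) (hq : q ≠ 0) (hr : r ≠ 0) :
    vectorSpan ℝ (dv p q r : Set E3) = ⊤ := by
  have mem : ∀ v w, v ∈ dv p q r → w ∈ dv p q r →
      v - w ∈ vectorSpan ℝ (dv p q r : Set E3) := by
    intro v w hv hw
    exact vsub_mem_vectorSpan ℝ (Finset.mem_coe.2 hv) (Finset.mem_coe.2 hw)
  have hAB := mem (pt p q r) (pt p (-q) (-r)) (by simp [mem_dv]) (by simp [mem_dv])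
  have hAC := mem (pt p q r) (pt (-p) q (-r)) (by simp [mem_dv]) (by simp [mem_dv])
  have hAD := mem (pt p q r) (pt (-p) (-q) r) (by simp [mem_dv]) (by simp [mem_dv])
  have e1 : pt 1 0 0 ∈ vectorSpan ℝ (dv p q r : Set E3) := by
    have h2 := Submodule.smul_mem _ (1 / (4 * p))
      (Submodule.sub_mem _ (Submodule.add_mem _ hAC hAD) hAB)
    convert h2 using 1
    ext i
    fin_cases i <;> simp [pt]
    field_simp
    ring
  have e2 : pt 0 1 0 ∈ vectorSpan ℝ (dv p q r : Set E3) := by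
    have h2 := Submodule.smul_mem _ (1 / (4 * q))
      (Submodule.sub_mem _ (Submodule.add_mem _ hAB hAD) hAC)
    convert h2 using 1
    ext i
    fin_cases i <;> simp [pt]
    field_simp
    ring
  have e3 : pt 0 0 1 ∈ vectorSpan ℝ (dv p q r : Set E3) := by
    have h2 := Submodule.smul_mem _ (1 / (4 * r))
      (Submodule.sub_mem _ (Submodule.add_mem _ hAB hAC) hAD)
    convert h2 using 1
    ext i
    fin_cases i <;> simp [pt]
    field_simp
    ring
  rw [eq_top_iff]
  intro x _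
  have : x = pt (x 0) (x 1) (x 2) := by
    ext i
    fin_cases i <;> simp [pt]
  rw [this, pt_eq]
  exact Submodule.add_mem _ (Submodule.add_mem _ (Submodule.smul_mem _ _ e1)
    (Submodule.smul_mem _ _ e2)) (Submodule.smul_mem _ _ e3)

/-- a two-dimensional face of a simplex -/
lemma face_of (V : Finset E3) (F : Set E3) (hF : IsTwoFace (convexHull ℝ (V : Set E3)) F)
    (l : E3 →ₗ[ℝ] ℝ) (M : ℝ) (hmax : ∀ v ∈ V, l v ≤ M)
    (hFM : ∀ x, x ∈ F ↔ x ∈ convexHull ℝ (V : Set E3) ∧ l x = M) (x y z w : E3)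
    (hV : ∀ v, v ∈ V ↔ v = x ∨ v = y ∨ v = z ∨ v = w) (hw : l w ≠ M) :
    F = convexHull ℝ {x, y, z} := by
  obtain ⟨hexp, hne, hrank⟩ := hF
  have hconv : Convex ℝ F := hexp.convex (convex_convexHull ℝ _)
  have hsub : F ⊆ convexHull ℝ {v | v ∈ V ∧ l v = M} := by
    intro x hx
    obtain ⟨hx1, hx2⟩ := (hFM x).1 hx
    exact mem_hull_of_max V l M hmax x hx1 hx2
  have hcover : ∀ v, v ∈ V ∧ l v = M → (v = x ∨ v = y ∨ v = z) ∧ l v = M := by
    rintro v ⟨hv, hvM⟩
    refine ⟨?_, hvM⟩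
    rcases (hV v).1 hv with h | h | h | h
    · exact Or.inl h
    · exact Or.inr (Or.inl h)
    · exact Or.inr (Or.inr h)
    · exact absurd (h ▸ hvM) hw
  have hxM : l x = M := by
    by_contra hc
    have : F ⊆ convexHull ℝ {y, z} := hsub.trans (convexHull_mono (by
      intro v hv
      obtain ⟨h1, h2⟩ := hcover v hv
      rcases h1 with rfl | rfl | rfl
      · exact absurd h2 hc
      · simp
      · simp))
    have := finrank_le_one_of_subset_pair F y z this
    omega
  have hyM : l y = M := by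
    by_contra hc
    have : F ⊆ convexHull ℝ {x, z} := hsub.trans (convexHull_mono (by
      intro v hv
      obtain ⟨h1, h2⟩ := hcover v hv
      rcases h1 with rfl | rfl | rfl
      · simp
      · exact absurd h2 hc
      · simp))
    have := finrank_le_one_of_subset_pair F x z this
    omega
  have hzM : l z = M := by
    by_contra hc
    have : F ⊆ convexHull ℝ {x, y} := hsub.trans (convexHull_mono (by
      intro v hv
      obtain ⟨h1, h2⟩ := hcover v hv
      rcases h1 with rfl | rfl | rfl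
      · simp
      · simp
      · exact absurd h2 hc))
    have := finrank_le_one_of_subset_pair F x y this
    omega
  apply Set.Subset.antisymm
  · refine hsub.trans (convexHull_mono ?_)
    intro v hv
    obtain ⟨h1, h2⟩ := hcover v hv
    simpa using h1
  · apply convexHull_min _ hconv
    have inV : ∀ v, v ∈ V → v ∈ convexHull ℝ (V : Set E3) :=
      fun v hv => subset_convexHull ℝ _ (Finset.mem_coe.2 hv)
    intro v hv
    simp only [Set.mem_insert_iff, Set.mem_singleton_iff] at hv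
    rcases hv with rfl | rfl | rfl
    · exact (hFM _).2 ⟨inV _ ((hV _).2 (Or.inl rfl)), hxM⟩
    · exact (hFM _).2 ⟨inV _ ((hV _).2 (Or.inr (Or.inl rfl))), hyM⟩
    · exact (hFM _).2 ⟨inV _ ((hV _).2 (Or.inr (Or.inr (Or.inl rfl)))), hzM⟩

lemma vol1 (p q r : ℝ) : vol3 (pt (-p) q (-r) - pt p (-q) (-r)) (pt (-p) (-q) r - pt p (-q) (-r))
    (pt p (-q) (-r) - pt p q r) = -(16 * (p * q * r)) := by
  simp [vol3, pt]; ring

lemma vol2 (p q r : ℝ) : vol3 (pt (-p) (-q) r - pt p q r) (pt (-p) q (-r) - pt p q r)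
    (pt p q r - pt p (-q) (-r)) = -(16 * (p * q * r)) := by
  simp [vol3, pt]; ring

lemma vol3' (p q r : ℝ) : vol3 (pt p q r - pt (-p) (-q) r) (pt p (-q) (-r) - pt (-p) (-q) r)
    (pt (-p) (-q) r - pt (-p) q (-r)) = -(16 * (p * q * r)) := by
  simp [vol3, pt]; ring

lemma vol4 (p q r : ℝ) : vol3 (pt p (-q) (-r) - pt (-p) q (-r)) (pt p q r - pt (-p) q (-r))
    (pt (-p) q (-r) - pt (-p) (-q) r) = -(16 * (p * q * r)) := by
  simp [vol3, pt]; ring

set_option maxHeartbeats 2000000 in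
/-- the disphenoid -/
lemma main (p q r a b c : ℝ) (hp : 0 < p) (hq : 0 < q) (hr : r < 0) (ha : 0 < a) (hb : 0 < b)
    (hc : 0 < c) (h1 : 4 * (q ^ 2 + r ^ 2) = a ^ 2) (h2 : 4 * (p ^ 2 + r ^ 2) = b ^ 2)
    (h3 : 4 * (p ^ 2 + q ^ 2) = c ^ 2) :
    AllCopies (convexHull ℝ (dv p q r : Set E3)) a b c := by
  have hpqr : 0 < -(16 * (p * q * r)) := by
    have := mul_neg_of_pos_of_neg (mul_pos hp hq) hr
    linarith
  refine ⟨⟨⟨dv p q r, rfl⟩, ?_⟩, ?_⟩
  · rw [interior_convexHull_nonempty_iff_affineSpan_eq_top]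
    have hne : (dv p q r : Set E3).Nonempty := ⟨pt p q r, by simp [mem_dv]⟩
    rw [AffineSubspace.affineSpan_eq_top_iff_vectorSpan_eq_top_of_nonempty ℝ E3 E3 hne]
    exact span_dv p q r hp.ne' hq.ne' hr.ne
  · intro F hF
    obtain ⟨hexp, hne, hrank⟩ := id hF
    obtain ⟨l, hl⟩ := hexp hne
    obtain ⟨x0, hx0⟩ := hne
    set M := l x0 with hMdef
    have hx0' : x0 ∈ convexHull ℝ (dv p q r : Set E3) ∧
        ∀ y ∈ convexHull ℝ (dv p q r : Set E3), l y ≤ l x0 := by
      rw [hl] at hx0; exact hx0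
    have hmax : ∀ v ∈ dv p q r, l v ≤ M := fun v hv =>
      hx0'.2 v (subset_convexHull ℝ _ (Finset.mem_coe.2 hv))
    have hFM : ∀ x, x ∈ F ↔ x ∈ convexHull ℝ (dv p q r : Set E3) ∧ l x = M := by
      intro x
      constructor
      · intro hx
        rw [hl] at hx
        exact ⟨hx.1, le_antisymm (hx0'.2 x hx.1) (hx.2 x0 hx0'.1)⟩
      · rintro ⟨hx, hxM⟩
        rw [hl]
        exact ⟨hx, fun y hy => by rw [hxM]; exact hx0'.2 y hy⟩
    set α := l (pt 1 0 0) with hα
    set β := l (pt 0 1 0) with hβ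
    set γ := l (pt 0 0 1) with hγ
    have hlpt : ∀ x y w : ℝ, l (pt x y w) = x * α + y * β + w * γ := by
      intro x y w
      rw [pt_eq, map_add, map_add, map_smul, map_smul, map_smul]
      simp [hα, hβ, hγ]
    have hnz : ¬ (α = 0 ∧ β = 0 ∧ γ = 0) := by
      rintro ⟨h1, h2, h3⟩
      have hl0 : ∀ x : E3, l x = 0 := by
        intro x
        have : x = pt (x 0) (x 1) (x 2) := by
          ext i
          fin_cases i <;> simp [pt]
        rw [this, hlpt, h1, h2, h3]; ring
      have hFeq : F = convexHull ℝ (dv p q r : Set E3) := by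
        ext x
        rw [hFM]
        constructor
        · exact fun hx => hx.1
        · exact fun hx => ⟨hx, by rw [hMdef, hl0, hl0]⟩
      rw [hFeq, ← direction_affineSpan, affineSpan_convexHull, direction_affineSpan,
        span_dv p q r hp.ne' hq.ne' hr.ne, finrank_top] at hrank
      simp at hrank
    have hnot : ¬ (l (pt p q r) = M ∧ l (pt p (-q) (-r)) = M ∧ l (pt (-p) q (-r)) = M ∧
        l (pt (-p) (-q) r) = M) := by
      rintro ⟨e1, e2, e3, e4⟩
      rw [hlpt] at e1 e2 e3 e4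
      apply hnz
      refine ⟨?_, ?_, ?_⟩
      · have : p * α = 0 := by linarith
        exact (mul_eq_zero.1 this).resolve_left hp.ne'
      · have : q * β = 0 := by linarith
        exact (mul_eq_zero.1 this).resolve_left hq.ne'
      · have : r * γ = 0 := by linarith
        exact (mul_eq_zero.1 this).resolve_left hr.ne
    have sa : a = Real.sqrt (4 * (q ^ 2 + r ^ 2)) := by rw [h1, Real.sqrt_sq ha.le]
    have sb : b = Real.sqrt (4 * (p ^ 2 + r ^ 2)) := by rw [h2, Real.sqrt_sq hb.le]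
    have sc : c = Real.sqrt (4 * (p ^ 2 + q ^ 2)) := by rw [h3, Real.sqrt_sq hc.le]
    have key : ∀ x y z w : E3, (∀ v, v ∈ dv p q r ↔ v = x ∨ v = y ∨ v = z ∨ v = w) →
        l w ≠ M → dist y z = a → dist z x = b → dist x y = c →
        vol3 (y - x) (z - x) (x - w) = -(16 * (p * q * r)) →
        CopyN (convexHull ℝ (dv p q r : Set E3)) F a b c := by
      intro x y z w hV hw d1 d2 d3 hvol
      have hw' : 0 < vol3 (y - x) (z - x) (x - w) := by rw [hvol]; exact hpqr
      refine ⟨x, y, z, face_of (dv p q r) F hF (l : E3 →ₗ[ℝ] ℝ) M hmax hFM x y z w hV hw,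
        d1, d2, d3, ?_⟩
      intro o ho
      exact vol3_pos_interior _ x y z w (hull_nonneg _ x y z w
        (fun v hv => (hV v).1 (Finset.mem_coe.1 hv)) hw') hw' o ho
    by_cases c4 : l (pt (-p) (-q) r) = M
    · by_cases c3 : l (pt (-p) q (-r)) = M
      · by_cases c2 : l (pt p (-q) (-r)) = M
        · have c1 : l (pt p q r) ≠ M := fun h => hnot ⟨h, c2, c3, c4⟩
          -- omit A : (B, C, D)
          refine key (pt p (-q) (-r)) (pt (-p) q (-r)) (pt (-p) (-q) r) (pt p q r) ?_ c1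
            ?_ ?_ ?_ ?_
          · intro v; rw [mem_dv]; tauto
          · rw [dist_pt, sa]; congr 1; ring
          · rw [dist_pt, sb]; congr 1; ring
          · rw [dist_pt, sc]; congr 1; ring
          · exact vol1 p q r
        · -- omit B : (A, D, C)
          refine key (pt p q r) (pt (-p) (-q) r) (pt (-p) q (-r)) (pt p (-q) (-r)) ?_ c2
            ?_ ?_ ?_ ?_
          · intro v; rw [mem_dv]; tauto
          · rw [dist_pt, sa]; congr 1; ring
          · rw [dist_pt, sb]; congr 1; ring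
          · rw [dist_pt, sc]; congr 1; ring
          · exact vol2 p q r
      · -- omit C : (D, A, B)
        refine key (pt (-p) (-q) r) (pt p q r) (pt p (-q) (-r)) (pt (-p) q (-r)) ?_ c3
          ?_ ?_ ?_ ?_
        · intro v; rw [mem_dv]; tauto
        · rw [dist_pt, sa]; congr 1; ring
        · rw [dist_pt, sb]; congr 1; ring
        · rw [dist_pt, sc]; congr 1; ring
        · exact vol3' p q r
    · -- omit D : (C, B, A)
      refine key (pt (-p) q (-r)) (pt p (-q) (-r)) (pt p q r) (pt (-p) (-q) r) ?_ c4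
        ?_ ?_ ?_ ?_
      · intro v; rw [mem_dv]; tauto
      · rw [dist_pt, sa]; congr 1; ring
      · rw [dist_pt, sb]; congr 1; ring
      · rw [dist_pt, sc]; congr 1; ring
      · exact vol4 p q r

theorem taskAcute : TaskAcute := by
  intro a b c ha hb hc h1 h2 h3
  have hp : 0 < (b ^ 2 + c ^ 2 - a ^ 2) / 8 := by linarith
  have hq : 0 < (c ^ 2 + a ^ 2 - b ^ 2) / 8 := by linarith
  have hr : 0 < (a ^ 2 + b ^ 2 - c ^ 2) / 8 := by linarith
  refine ⟨_, main (Real.sqrt ((b ^ 2 + c ^ 2 - a ^ 2) / 8)) (Real.sqrt ((c ^ 2 + a ^ 2 - b ^ 2) / 8))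
    (-Real.sqrt ((a ^ 2 + b ^ 2 - c ^ 2) / 8)) a b c (Real.sqrt_pos.2 hp) (Real.sqrt_pos.2 hq)
    (neg_lt_zero.2 (Real.sqrt_pos.2 hr)) ha hb hc ?_ ?_ ?_⟩
  · rw [neg_sq, Real.sq_sqrt hq.le, Real.sq_sqrt hr.le]; ring
  · rw [neg_sq, Real.sq_sqrt hp.le, Real.sq_sqrt hr.le]; ring
  · rw [Real.sq_sqrt hp.le, Real.sq_sqrt hq.le]; ring

end Pool.Agent.H662R3.NR
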